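import Mathlib

/-!
# MP_e83c66_co, Q1: vertex removal and the fixed clique property

The counterexample is a flag triangulation of the 3-sphere with 14 vertices, obtained from the
boundary of the 4-dimensional cross-polytope by three pairs of opposite edge subdivisions. It has a
fixed-point-free involution, while it becomes dismantlable after removing the vertex `2`, and the
link of the vertex `2` is a flag 2-sphere with a unique vertex of maximum degree that becomes
dismantlable after removing any vertex.
-/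

set_option autoImplicit false

namespace Pool.Agent.Results.MP_e83c66_co.VertexRemoval

/-- A simplicial endomorphism: adjacent vertices are mapped to equal or adjacent vertices. -/
def IsSimplicial {V : Type} (G : SimpleGraph V) (f : V → V) : Prop :=
  ∀ x y, G.Adj x y → f x = f y ∨ G.Adj (f x) (f y)

/-- The fixed clique property: every simplicial endomorphism `f` fixes some clique `C`, i.e. there is
a nonempty set `C` of pairwise adjacent vertices with `f[C] = C`. -/
def FixedCliqueProperty {V : Type} (G : SimpleGraph V) : Prop :=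
  ∀ f : V → V, IsSimplicial G f → ∃ C : Set V, C.Nonempty ∧ G.IsClique C ∧ f '' C = C

open Finset

section General
variable {V : Type} [DecidableEq V] {G : SimpleGraph V}

/-- the fixed clique property of the subgraph induced on `S`, in terms of maps of `V` -/
def FOn (G : SimpleGraph V) (S : Finset V) : Prop :=
  ∀ f : V → V, (∀ x ∈ S, f x ∈ S) →
    (∀ x ∈ S, ∀ y ∈ S, G.Adj x y → f x = f y ∨ G.Adj (f x) (f y)) →
    ∃ C : Finset V, C ⊆ S ∧ C.Nonempty ∧ G.IsClique (C : Set V) ∧ C.image f ⊆ C

/-- an invariant clique contains a fixed one -/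
lemma exists_fixed (f : V → V) (C : Finset V) (hC : C.Nonempty) (hcl : G.IsClique (C : Set V))
    (hf : C.image f ⊆ C) : ∃ D ⊆ C, D.Nonempty ∧ G.IsClique (D : Set V) ∧ D.image f = D := by
  induction C using Finset.strongInduction with
  | _ C ih =>
    by_cases h : C.image f = C
    · exact ⟨C, Subset.refl _, hC, hcl, h⟩
    · have hss : C.image f ⊂ C := hf.ssubset_of_ne h
      obtain ⟨D, hD, h1, h2, h3⟩ := ih (C.image f) hss (hC.image f)
        (hcl.subset (by exact_mod_cast hf)) (image_subset_image hf)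
      exact ⟨D, hD.trans hf, h1, h2, h3⟩

/-- removing a dominated vertex -/
lemma FOn.dominated {S : Finset V} {x y : V} (hx : x ∈ S) (hy : y ∈ S) (hxy : G.Adj x y)
    (hdom : ∀ z ∈ S, G.Adj x z → z = y ∨ G.Adj y z) (h : FOn G (S.erase x)) : FOn G S := by
  intro f hfS hf
  set r : V → V := fun z => if z = x then y else z with hr
  have rx : ∀ z, z = x → r z = y := fun z hz => by simp [hr, hz]
  have rn : ∀ z, z ≠ x → r z = z := fun z hz => by simp [hr, hz]
  have hyE : y ∈ S.erase x := mem_erase.2 ⟨hxy.ne', hy⟩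
  have rS : ∀ z ∈ S, r z ∈ S.erase x := by
    intro z hz
    by_cases hzx : z = x
    · rw [rx z hzx]
      exact hyE
    · rw [rn z hzx]
      exact mem_erase.2 ⟨hzx, hz⟩
  -- `r` is simplicial on `S`
  have rsim : ∀ z ∈ S, ∀ w ∈ S, G.Adj z w → r z = r w ∨ G.Adj (r z) (r w) := by
    intro z hz w hw hzw
    by_cases hzx : z = x
    · have hwx : w ≠ x := fun h => hzw.ne (hzx.trans h.symm)
      rw [rx z hzx, rn w hwx]
      subst hzx
      rcases hdom w hw hzw with h | h
      · exact Or.inl h.symm
      · exact Or.inr h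
    · rw [rn z hzx]
      by_cases hwx : w = x
      · rw [rx w hwx]
        subst hwx
        rcases hdom z hz hzw.symm with h | h
        · exact Or.inl h
        · exact Or.inr h.symm
      · rw [rn w hwx]
        exact Or.inr hzw
  obtain ⟨C0, hC0S, hC0, hcl0, hinv0⟩ := h (fun z => r (f z))
    (fun z hz => rS _ (hfS z (mem_of_mem_erase hz)))
    (fun z hz w hw hzw => by
      rcases hf z (mem_of_mem_erase hz) w (mem_of_mem_erase hw) hzw with h1 | h1
      · exact Or.inl (congrArg r h1)
      · exact rsim _ (hfS z (mem_of_mem_erase hz)) _ (hfS w (mem_of_mem_erase hw)) h1)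
  obtain ⟨C, hCC, hC, hcl, hfix⟩ := exists_fixed (G := G) _ C0 hC0 hcl0 hinv0
  have hCS : ∀ z ∈ C, z ∈ S := fun z hz => mem_of_mem_erase (hC0S (hCC hz))
  by_cases hall : ∀ z ∈ C, f z ≠ x
  · refine ⟨C, hCS, hC, hcl, ?_⟩
    intro w hw
    obtain ⟨z, hz, rfl⟩ := mem_image.1 hw
    have : r (f z) ∈ C := by
      rw [← hfix]
      exact mem_image_of_mem _ hz
    rwa [rn _ (hall z hz)] at this
  · push Not at hall
    obtain ⟨z0, hz0, hfz0⟩ := hall
    have hyC : y ∈ C := by
      rw [← hfix]
      exact mem_image.2 ⟨z0, hz0, rx _ hfz0⟩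
    -- the family of cliques
    classical
    let fam' : Finset (Finset V) := S.powerset.filter (fun K => C ⊆ K ∧ K ⊆ insert y (K.image f) ∧
      ∀ a ∈ K, ∀ b ∈ K, a ≠ b → G.Adj a b)
    have memf : ∀ K, K ∈ fam' ↔ K ⊆ S ∧ C ⊆ K ∧ K ⊆ insert y (K.image f) ∧
        ∀ a ∈ K, ∀ b ∈ K, a ≠ b → G.Adj a b := by
      intro K
      simp only [fam', mem_filter, mem_powerset]
    have hCf : C ∈ fam' := by
      rw [memf]
      refine ⟨hCS, Subset.refl _, ?_, fun a ha b hb hab => hcl ha hb hab⟩
      intro w hw
      rw [← hfix] at hw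
      obtain ⟨z, hz, rfl⟩ := mem_image.1 hw
      by_cases hzx : f z = x
      · rw [mem_insert]
        exact Or.inl (rx _ hzx)
      · rw [rn _ hzx]
        exact mem_insert_of_mem (mem_image_of_mem _ hz)
    obtain ⟨K, hK, hmax⟩ := exists_max_image fam' (fun K => K.card) ⟨C, hCf⟩
    obtain ⟨hKS, hCK, hKf, hKcl⟩ := (memf K).1 hK
    obtain ⟨K', hK'⟩ : ∃ K', K' = insert y (K.image f) := ⟨_, rfl⟩
    have memK' : ∀ a, a ∈ K' ↔ a = y ∨ a ∈ K.image f := by
      intro a
      rw [hK', mem_insert]
    have hsubK' : K ⊆ K' := hK' ▸ hKf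
    have hxK' : x ∈ K.image f := mem_image.2 ⟨z0, hCK hz0, hfz0⟩
    have himS : ∀ w ∈ K.image f, w ∈ S := by
      intro w hw
      obtain ⟨z, hz, rfl⟩ := mem_image.1 hw
      exact hfS z (hKS hz)
    have himcl : ∀ a ∈ K.image f, ∀ b ∈ K.image f, a ≠ b → G.Adj a b := by
      intro a ha b hb hab
      obtain ⟨p, hp, rfl⟩ := mem_image.1 ha
      obtain ⟨q, hq, rfl⟩ := mem_image.1 hb
      have hpq : p ≠ q := fun h => hab (by rw [h])
      exact (hf p (hKS hp) q (hKS hq) (hKcl p hp q hq hpq)).resolve_left hab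
    have hyim : ∀ a ∈ K.image f, a ≠ y → G.Adj y a := by
      intro a ha hay
      by_cases hax : a = x
      · rw [hax]
        exact hxy.symm
      · have := himcl x hxK' a ha (Ne.symm hax)
        exact (hdom a (himS a ha) this).resolve_left hay
    have hK'f : K' ∈ fam' := by
      rw [memf]
      refine ⟨?_, hCK.trans hsubK', ?_, ?_⟩
      · intro w hw
        rcases (memK' w).1 hw with h1 | h1
        · exact h1 ▸ hy
        · exact himS w h1
      · intro w hw
        rcases (memK' w).1 hw with h1 | h1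
        · exact h1 ▸ mem_insert_self _ _
        · exact mem_insert_of_mem (image_subset_image hsubK' h1)
      · intro a ha b hb hab
        rcases (memK' a).1 ha with h1 | h1
        · rcases (memK' b).1 hb with h2 | h2
          · exact absurd (h1.trans h2.symm) hab
          · rw [h1]
            exact hyim b h2 (fun h => hab (h1.trans h.symm))
        · rcases (memK' b).1 hb with h2 | h2
          · rw [h2]
            exact (hyim a h1 (fun h => hab (h.trans h2.symm))).symm
          · exact himcl a h1 b h2 hab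
    have hcard := hmax K' hK'f
    have hKK : K = K' := eq_of_subset_of_card_le hsubK' hcard
    refine ⟨K, hKS, hC.mono hCK, fun a ha b hb hab => hKcl a ha b hb hab, ?_⟩
    intro w hw
    rw [hKK]
    exact (memK' w).2 (Or.inr hw)

lemma FOn.single (x : V) : FOn G {x} := by
  intro f hf _
  refine ⟨{x}, Subset.refl _, ⟨x, by simp⟩, ?_, ?_⟩
  · simp
  · intro w hw
    obtain ⟨z, hz, rfl⟩ := mem_image.1 hw
    exact hf z hz

/-- from maps of the whole vertex set to maps of the induced subgraph -/
lemma fcp_induce (S : Set V) [Finite V] (T : Finset V) (hT : ∀ x, x ∈ T ↔ x ∈ S) (h : FOn G T) :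
    FixedCliqueProperty (G.induce S) := by
  classical
  intro f hf
  obtain ⟨C, hCT, hC, hcl, hinv⟩ := h (fun x => if hx : x ∈ S then (f ⟨x, hx⟩ : V) else x)
    (fun x hx => by
      have hx' := (hT x).1 hx
      simp only [hx', dif_pos]
      exact (hT _).2 (f ⟨x, hx'⟩).2)
    (fun x hx y hy hxy => by
      have hx' := (hT x).1 hx
      have hy' := (hT y).1 hy
      simp only [hx', hy', dif_pos]
      rcases hf ⟨x, hx'⟩ ⟨y, hy'⟩ hxy with h | h
      · exact Or.inl (congrArg Subtype.val h)
      · exact Or.inr h)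
  obtain ⟨D, hDC, hD, hDcl, hDf⟩ := exists_fixed (G := G) _ C hC hcl hinv
  have hDS : ∀ x ∈ D, x ∈ S := fun x hx => (hT x).1 (hCT (hDC hx))
  refine ⟨{x | (x : V) ∈ D}, ?_, ?_, ?_⟩
  · obtain ⟨x, hx⟩ := hD
    exact ⟨⟨x, hDS x hx⟩, hx⟩
  · intro x hx y hy hxy
    exact hDcl hx hy (fun h => hxy (Subtype.ext h))
  · ext x
    constructor
    · rintro ⟨y, hy, rfl⟩
      have : (f y : V) ∈ D := by
        rw [← hDf]
        refine mem_image.2 ⟨y, hy, ?_⟩
        simp only [y.2, dif_pos]
      exact this
    · intro hx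
      have hx' : (x : V) ∈ D := hx
      rw [← hDf] at hx'
      obtain ⟨y, hy, hyx⟩ := mem_image.1 hx'
      refine ⟨⟨y, hDS y hy⟩, hy, ?_⟩
      apply Subtype.ext
      have := hDS y hy
      simp only [this, dif_pos] at hyx
      exact hyx

/-- a graph with a unique vertex of maximum degree such that all its vertex-deleted subgraphs have
the fixed clique property has the fixed clique property -/
lemma FOn.of_unique_max {S : Finset V} (hdel : ∀ x ∈ S, FOn G (S.erase x)) {w : V} (hw : w ∈ S)
    (N : V → Finset V) (hN : ∀ x y, y ∈ N x ↔ y ∈ S ∧ G.Adj x y)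
    (hmax : ∀ u ∈ S, u ≠ w → (N u).card < (N w).card) : FOn G S := by
  intro f hfS hf
  by_cases hsurj : ∀ x ∈ S, x ∈ S.image f
  · -- `f` is a bijection of `S`
    have hinj : Set.InjOn f (S : Set V) := by
      apply injOn_of_card_image_eq
      apply le_antisymm card_image_le
      exact card_le_card hsurj
    have hfw : f w = w := by
      by_contra hne
      have h1 := hmax (f w) (hfS w hw) hne
      have h2 : (N w).image f ⊆ N (f w) := by
        intro z hz
        obtain ⟨u, hu, rfl⟩ := mem_image.1 hz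
        obtain ⟨huS, hwu⟩ := (hN w u).1 hu
        rw [hN]
        refine ⟨hfS u huS, ?_⟩
        rcases hf w hw u huS hwu with h | h
        · exact absurd (hinj hw huS h) hwu.ne
        · exact h
      have h3 : ((N w).image f).card = (N w).card := by
        apply card_image_of_injOn
        intro a ha b hb hab
        exact hinj ((hN w a).1 ha).1 ((hN w b).1 hb).1 hab
      have h4 := card_le_card h2
      omega
    refine ⟨{w}, by simpa using hw, ⟨w, by simp⟩, by simp, ?_⟩
    intro z hz
    obtain ⟨u, hu, rfl⟩ := mem_image.1 hz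
    rw [mem_singleton] at hu ⊢
    rw [hu, hfw]
  · push Not at hsurj
    obtain ⟨x, hx, hxf⟩ := hsurj
    obtain ⟨C, h1, h2, h3, h4⟩ := hdel x hx f
      (fun z hz => mem_erase.2 ⟨fun h => hxf (h ▸ mem_image_of_mem f (mem_of_mem_erase hz)),
        hfS z (mem_of_mem_erase hz)⟩)
      (fun z hz w hw => hf z (mem_of_mem_erase hz) w (mem_of_mem_erase hw))
    exact ⟨C, h1.trans (erase_subset _ _), h2, h3, h4⟩

end General

/-! ### the graph -/

/-- adjacency lists as bit masks -/
def masks : List ℕ :=
  [9704, 6868, 14834, 14065, 6030, 11085, 7983, 12063, 13557, 14586, 4569, 8934, 1886, 2989]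

/-- adjacency of the graph -/
def A (i j : Fin 14) : Bool := (masks.getD i 0).testBit j

/-- The graph: a flag triangulation of the 3-sphere with 14 vertices. -/
def G : SimpleGraph (Fin 14) where
  Adj i j := A i j = true
  symm := by
    have h : ∀ i j : Fin 14, A i j = true → A j i = true := by decide +kernel
    exact ⟨fun i j => h i j⟩
  loopless := by
    have h : ∀ i : Fin 14, ¬ A i i = true := by decide +kernel
    exact ⟨h⟩

/-- check of an elimination order by dominated vertices, for the set `S` of vertices -/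
def chk : List (Fin 14 × Fin 14) → Finset (Fin 14) → Bool
  | [], S => decide (S.card = 1)
  | p :: l, S => decide (p.1 ∈ S) && decide (p.2 ∈ S) && A p.1 p.2 &&
      decide (∀ z ∈ S, A p.1 z = true → z = p.2 ∨ A p.2 z = true) && chk l (S.erase p.1)

lemma chk_sound : ∀ (l : List (Fin 14 × Fin 14)) (S : Finset (Fin 14)), chk l S = true → FOn G S := by
  intro l
  induction l with
  | nil =>
    intro S h
    simp only [chk, decide_eq_true_eq] at h
    obtain ⟨x, rfl⟩ := card_eq_one.1 h
    exact FOn.single x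
  | cons p l ih =>
    intro S h
    simp only [chk, Bool.and_eq_true, decide_eq_true_eq] at h
    obtain ⟨⟨⟨⟨h1, h2⟩, h3⟩, h4⟩, h5⟩ := h
    exact FOn.dominated h1 h2 h3 h4 (ih _ h5)

/-- the neighbours of the vertex `2` -/
def L : Finset (Fin 14) := {1, 4, 5, 6, 7, 8, 11, 12, 13}

def orderOf : Fin 14 → List (Fin 14 × Fin 14)
  | 1 => [(4, 8), (7, 13), (11, 5), (5, 8), (6, 8), (12, 8), (8, 13)]
  | 4 => [(12, 6), (1, 11), (6, 5), (5, 13), (7, 13), (8, 13), (11, 13)]
  | 5 => [(13, 7), (11, 1), (6, 12), (1, 4), (4, 8), (7, 8), (8, 12)]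
  | 6 => [(5, 13), (11, 7), (1, 4), (4, 8), (7, 8), (12, 8), (8, 13)]
  | 7 => [(4, 12), (1, 6), (11, 5), (5, 8), (6, 8), (12, 8), (8, 13)]
  | 8 => [(4, 1), (5, 11), (6, 1), (7, 11), (12, 1), (1, 11), (11, 13)]
  | 11 => [(5, 8), (6, 12), (1, 4), (4, 8), (7, 8), (12, 8), (8, 13)]
  | 12 => [(4, 7), (1, 11), (6, 5), (5, 13), (7, 13), (8, 13), (11, 13)]
  | 13 => [(5, 6), (11, 1), (6, 12), (1, 4), (4, 8), (7, 8), (8, 12)]
  | _ => []

theorem chkL : ∀ x ∈ L, chk (orderOf x) (L.erase x) = true := by decide +kernel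

theorem chkG : chk [(1, 9), (11, 9), (9, 3), (4, 10), (5, 0), (6, 10), (0, 7), (12, 10), (3, 7),
    (7, 8), (10, 8), (8, 13)] (univ.erase 2) = true := by decide +kernel

/-- neighbours inside `L` -/
def NL (x : Fin 14) : Finset (Fin 14) := L.filter (fun y => A x y = true)

theorem fonL : FOn G L := by
  refine FOn.of_unique_max (fun x hx => chk_sound _ _ (chkL x hx)) (w := 8) (by decide) NL ?_ ?_
  · intro x y
    rw [NL, mem_filter]
    exact Iff.rfl
  · decide +kernel

/-- the fixed-point-free involution -/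
def tau : Fin 14 → Fin 14 := ![1, 0, 3, 2, 5, 4, 7, 6, 9, 8, 11, 10, 13, 12]

theorem not_fcp : ¬ FixedCliqueProperty G := by
  intro h
  have h1 : ∀ x y : Fin 14, A x y = true → tau x = tau y ∨ A (tau x) (tau y) = true := by
    decide +kernel
  have h2 : ∀ x : Fin 14, x ≠ tau x ∧ A x (tau x) = false := by decide +kernel
  obtain ⟨C, ⟨x, hx⟩, hcl, hf⟩ := h tau h1
  have htx : tau x ∈ C := by
    rw [← hf]
    exact ⟨x, hx, rfl⟩
  have h3 : A x (tau x) = true := hcl hx htx (h2 x).1
  rw [(h2 x).2] at h3
  exact absurd h3 (by decide)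

/-- There are a finite graph `G` and a vertex `v` such that the subgraph induced on the open
neighbourhood of `v` and the subgraph induced on all vertices other than `v` have the fixed clique
property while `G` does not. -/
theorem result : ∃ (G : SimpleGraph (Fin 14)) (v : Fin 14),
    FixedCliqueProperty (G.induce (G.neighborSet v)) ∧
    FixedCliqueProperty (G.induce ({v}ᶜ : Set (Fin 14))) ∧ ¬ FixedCliqueProperty G := by
  refine ⟨G, 2, ?_, ?_, not_fcp⟩
  · refine fcp_induce _ L ?_ fonL
    have h : ∀ x : Fin 14, x ∈ L ↔ A 2 x = true := by decide +kernel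
    exact h
  · refine fcp_induce _ (univ.erase 2) ?_ (chk_sound _ _ chkG)
    intro x
    simp

end Pool.Agent.Results.MP_e83c66_co.VertexRemoval
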